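import Pool.Agent.Helper92.FR.GoalsA

/-! # FR-TR0: basic facts on the truncated exponential law -/

set_option autoImplicit false

namespace Pool.Agent.Helper49.FR

open MeasureTheory Pool.Agent.Helper92.FR

theorem MM_pos (a : ℝ) : 0 < MM a := by
  unfold MM
  apply intervalIntegral.intervalIntegral_pos_of_pos
  · exact (Continuous.intervalIntegrable (by fun_prop) _ _)
  · intro x
    exact Real.exp_pos _
  · norm_num

theorem tr0 : Tr0Stmt := by
  intro a
  have hM := MM_pos a
  have hmeas : Measurable (fun x : ℝ => ENNReal.ofReal (Real.exp (a * x) / MM a)) := by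
    fun_prop
  have hprob : IsProbabilityMeasure (tl a) := by
    rw [isProbabilityMeasure_iff]
    unfold tl
    rw [withDensity_apply _ MeasurableSet.univ, Measure.restrict_univ,
      ← ofReal_integral_eq_lintegral_ofReal]
    · rw [integral_div, integral_Icc_eq_integral_Ioc,
        ← intervalIntegral.integral_of_le zero_le_one]
      have : (∫ x in (0 : ℝ)..1, Real.exp (a * x)) = MM a := rfl
      rw [this, div_self hM.ne', ENNReal.ofReal_one]
    · apply ContinuousOn.integrableOn_compact isCompact_Icc
      fun_prop
    · exact Filter.Eventually.of_forall fun x => by positivity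
  have hR : ∀ f : ℝ → ℝ, Continuous f →
      ∫ x, f x ∂(tl a) = (∫ x in (0 : ℝ)..1, f x * Real.exp (a * x)) / MM a := by
    intro f hf
    unfold tl
    rw [integral_withDensity_eq_integral_toReal_smul hmeas
      (Filter.Eventually.of_forall fun x => ENNReal.ofReal_lt_top)]
    rw [integral_Icc_eq_integral_Ioc, ← intervalIntegral.integral_of_le zero_le_one,
      ← intervalIntegral.integral_div]
    congr 1
    ext x
    rw [ENNReal.toReal_ofReal (by positivity), smul_eq_mul]
    ring
  have hC : ∀ f : ℝ → ℂ, Continuous f →
      ∫ x, f x ∂(tl a) = (∫ x in (0 : ℝ)..1, f x * (Real.exp (a * x) : ℂ)) / (MM a : ℂ) := by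
    intro f hf
    unfold tl
    rw [integral_withDensity_eq_integral_toReal_smul hmeas
      (Filter.Eventually.of_forall fun x => ENNReal.ofReal_lt_top)]
    rw [integral_Icc_eq_integral_Ioc, ← intervalIntegral.integral_of_le zero_le_one,
      ← intervalIntegral.integral_div]
    congr 1
    ext x
    rw [ENNReal.toReal_ofReal (by positivity), Complex.real_smul]
    push_cast
    ring
  have hmI : ∀ f : ℝ → ℝ, Continuous f → IntervalIntegrable f volume 0 1 :=
    fun f hf => hf.intervalIntegrable _ _
  refine ⟨hM, hprob, hR, hC, ?_, ?_, ?_⟩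
  · unfold tl
    apply withDensity_absolutelyContinuous
    rw [Measure.restrict_apply measurableSet_Icc.compl]
    simp
  · unfold mm
    apply div_nonneg _ hM.le
    apply intervalIntegral.integral_nonneg zero_le_one
    intro x hx
    exact mul_nonneg hx.1 (Real.exp_pos _).le
  · unfold mm
    rw [div_le_one hM]
    unfold MM
    apply intervalIntegral.integral_mono_on zero_le_one
    · exact hmI _ (by fun_prop)
    · exact hmI _ (by fun_prop)
    · intro x hx
      have := (Real.exp_pos (a * x)).le
      nlinarith [hx.1, hx.2]

end Pool.Agent.Helper49.FR
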